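import Pool.Agent.Q161.OD.Stm

/-!
# Project OS (helper161): the 2-Selmer sets of 100% of ALL quadratic twists of an odd degree curve

GOAL.  `f ∈ ℤ[X]` irreducible over `ℚ`, of ODD degree `n ≥ 5`, `a` its leading coefficient,
`C_D : D y² = f(x)`, `D` squarefree.  The 2-coverings of `C_D` are the curves
`x - θ w = δ η²`, `w = a D N(δ) v²`, for `δ ∈ L^*/ℚ^* L^*²`, `L = ℚ(θ) = ℚ[X]/(f)`; the one of `δ = 1` has the
rational point `(1 : 0)` above `∞`.  For 100% of all squarefree `D` this is the only one which is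
everywhere locally soluble: the 2-Selmer set of `C_D` has exactly one element.  So for all rational
points `P` of `C_D` the class of `P - ∞` is divisible by 2 in `J_D(ℚ)`.

PROOF.  Let `δ` belong to an everywhere locally soluble covering.  At a prime `l ∣ D` outside a finite
set there are two cases.  (R) `x/w` is a zero of `f` modulo `l`, `θ ≡ x/w` modulo the prime `v0` of norm `l`:
the parity of `δ` at `v0` is different from the one at the other primes `v` above `l`.  (I) `l ∣ w`: then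
`δ` is a rational number times a square locally at `l`.  Let `m` be the product of the `l` with (I),
`α ∈ 𝓞 L` a generator of the product of the `v0`, up to a small ideal, in the class of `δ`:
`α = c δ η²`, `|σ α| ≤ C (|D|/m)^(1/n)`, and `D N(α) = κ m s²` with `κ` from a finite set (the type).  The
pairs `(α, m)` of one type satisfy the local conditions `P1`, `P2` of project OD.  If `α` is fixed and
not in `ℚ^* L^*²`, then `m` has no prime factor in a set of primes of positive density.  So the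
theorem follows from the sieve of project OD (`S_CT`, proved).
-/

set_option autoImplicit false

namespace Pool.Agent.Q161.OS

open Polynomial NumberField IsDedekindDomain Finset
open Pool.Agent.Q51.EL
open Pool.Agent.Q161.OD (P1 P2 Dvg)

/-- the curve `x - θ w = d(θ) η²`, `w = κ v²` has a point over `F` -/
def Cov (f : ℤ[X]) (d : ℚ[X]) (κ : ℚ) (F : Type) [Field F] [CharZero F] : Prop :=
  ∃ (x w v : F) (g : F[X]), (x ≠ 0 ∨ w ≠ 0) ∧
    f.map (Int.castRingHom F) ∣ C x - C w * X - d.map (Rat.castHom F) * g ^ 2 ∧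
    w = (κ : F) * v ^ 2

section L

variable {L : Type} [Field L] [NumberField L]

variable (L) in
/-- `δ` is a rational number times a square -/
def Tr (δ : L) : Prop := ∃ (c : ℚ) (η : L), δ = (c : L) * η ^ 2

/-- the local conditions for `(α, m)`: the pair belongs to a covering of `C_D`, of type `κ`; `t = a θ` -/
structure Gd (B : ℕ) (t : 𝓞 L) (κ D : ℤ) (α : 𝓞 L) (m : ℤ) : Prop where
  even : ∀ l : ℕ, l.Prime → ¬ l ∣ B → ¬ (l : ℤ) ∣ D → ¬ (l : ℤ) ∣ m ∧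
    ∀ v : HeightOneSpectrum (𝓞 L), Abv v l → v.valuation L (α : L) = 1
  odd : ∀ l : ℕ, l.Prime → ¬ l ∣ B → (l : ℤ) ∣ D →
    ((l : ℤ) ∣ m ∧ (∀ v : HeightOneSpectrum (𝓞 L), Abv v l → v.valuation L (α : L) = 1) ∧
      ∃ c : ℤ, ¬ (l : ℤ) ∣ c ∧ ∀ v : HeightOneSpectrum (𝓞 L), Abv v l →
        ∃ g : 𝓞 L, (c : 𝓞 L) * α - g ^ 2 ∈ v.asIdeal) ∨
    (¬ (l : ℤ) ∣ m ∧ ∃ v0 : HeightOneSpectrum (𝓞 L), Abv v0 l ∧ Ideal.absNorm v0.asIdeal = l ∧
      v0.valuation L (α : L) = WithZero.exp (-1 : ℤ) ∧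
      (∀ v : HeightOneSpectrum (𝓞 L), Abv v l → v ≠ v0 → v.valuation L (α : L) = 1) ∧
      ∃ r : ℤ, t - (r : 𝓞 L) ∈ v0.asIdeal ∧ ∀ v : HeightOneSpectrum (𝓞 L), Abv v l → v ≠ v0 →
        ∃ g : 𝓞 L, ((κ * m : ℤ) : 𝓞 L) * α - ((r : 𝓞 L) - t) * g ^ 2 ∈ v.asIdeal)

end L

/-! ## Part A: local theory -/

/-- JOB AP2. Approximation of an `l`-adic point of a covering by elements of `L`.
Proof: adapt `Q239.EL.ap` (`Pool/Agent/Q239/EL/AP.lean`, `EL.S_AP`), which treats `x, w, g`; in addition `v` (here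
`l^(-k') v`, and a rational approximation `q` of it): `l^e w0 = κ (l^(-k') v)²`.  The `q` is chosen after the
integers `x, w`, close enough in terms of `κ`. -/
def S_AP2 : Prop := ∀ (f : ℤ[X]) (L : Type) [Field L] [NumberField L] (θ : L), Setup f L θ →
  ∀ (l : ℕ) [Fact l.Prime], ¬ (l : ℤ) ∣ f.leadingCoeff → ∀ (d : ℚ[X]) (κ : ℚ), Cov f d κ ℚ_[l] →
  ∀ K : ℕ, ∃ (x w : ℤ) (e : ℕ) (g : L) (q : ℚ), e < 2 ∧ (¬ (l : ℤ) ∣ x ∨ ¬ (l : ℤ) ∣ w) ∧
    (∀ v : HeightOneSpectrum (𝓞 L), Abv v l →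
      v.valuation L ((l : L) ^ e * ((x : L) - w * θ) - aeval θ d * g ^ 2) ≤
        WithZero.exp (-(K : ℤ))) ∧
    padicNorm l ((l : ℚ) ^ e * w - κ * q ^ 2) ≤ (l : ℚ) ^ (-(K : ℤ))

/-- JOB NV2. Norm and valuations (`EL.S_NV` without the hypothesis that `[L : ℚ]` is even).
Proof: adapt `Q239.EL.nv` (`Pool/Agent/Q239/EL/NV.lean`): `|N x| = ∏ (N v)^(v(x))`, `∑_{v | l} f_v = n`. -/
def S_NV2 : Prop := ∀ (L : Type) [Field L] [NumberField L],
  ∀ l : ℕ, l.Prime → Squarefree (Ideal.span {(l : 𝓞 L)}) → ∀ x : L, x ≠ 0 →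
  (∀ e : ℤ, (∀ v : HeightOneSpectrum (𝓞 L), Abv v l → Par v x e) →
    Even (padicValRat l (Algebra.norm ℚ x) + Module.finrank ℚ L * e)) ∧
  ∀ (e0 e : ℤ) (v0 : HeightOneSpectrum (𝓞 L)), Abv v0 l → Ideal.absNorm v0.asIdeal = l →
    Par v0 x e0 → (∀ v : HeightOneSpectrum (𝓞 L), Abv v l → v ≠ v0 → Par v x e) →
    Even (padicValRat l (Algebra.norm ℚ x) + e0 + (Module.finrank ℚ L - 1) * e)

/-- JOB SC2. Parities of the valuations of `δ = d(θ)` at the primes above `l`.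
Proof (from `S_AP2`, `S_ROOT`, `S_NV2`, `S_RAM`; adapt `Q239.EL.sc`).  `κ = a D N(δ)`.  By `S_ROOT` there are
three cases.  (I) `l ∣ w`, `l ∤ x`: `v(x - w θ) = 1` for all `v`, so `Par v δ e` for all `v`.  (U) `l ∤ w` and
`v(x - w θ) = 1` for all `v`: `Par v δ e` for all `v`, and `l^e w ≈ κ q²` gives `e ≡ v_l(D) + v_l(N(δ)) ≡
v_l(D) + n e ≡ v_l(D) + e`, so `l ∤ D` (`D` squarefree).  (R) `l ∤ w`, `v0(x - w θ) < 1`: `Par v δ e` for `v ≠ v0`; if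
`e0` is the parity at `v0`, `e ≡ v_l(D) + e0 + (n - 1) e ≡ v_l(D) + e0`; so `e0 ≡ e` if `l ∤ D` and
`e0 ≡ e + 1` if `l ∣ D`.  (`K` is chosen large in terms of `κ`, `δ`; `a` is prime to `l`.) -/
def S_SC2 : Prop := ∀ (f : ℤ[X]) (L : Type) [Field L] [NumberField L] (θ : L), Setup f L θ →
  Odd f.natDegree → ∃ B : ℕ, B ≠ 0 ∧ ∀ (l : ℕ) [Fact l.Prime], ¬ l ∣ B → ∀ (d : ℚ[X]) (D : ℤ),
  aeval θ d ≠ 0 → Squarefree D →
  Cov f d (((f.leadingCoeff * D : ℤ) : ℚ) * Algebra.norm ℚ (aeval θ d)) ℚ_[l] →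
  ∃ e : ℤ, (∀ v : HeightOneSpectrum (𝓞 L), Abv v l → Par v (aeval θ d) e) ∨
    ((l : ℤ) ∣ D ∧ ∃ v0 : HeightOneSpectrum (𝓞 L), Abv v0 l ∧ Ideal.absNorm v0.asIdeal = l ∧
      Par v0 (aeval θ d) (e + 1) ∧
      ∀ v : HeightOneSpectrum (𝓞 L), Abv v l → v ≠ v0 → Par v (aeval θ d) e)

/-- JOB SD2. The classes of `α = d(θ)` at the primes above `l`, `l ∣ D`.
Proof (from `S_AP2` with `K` large, `S_ROOT`, `S_NV2`, `S_RAM`; adapt `Q239.EL.sd`); `κ = a D N(α)`.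
(1) All `v(α) = 1`: `v_l(κ) = 1`.  If `l ∤ w` then `l^e w ≈ κ q²` gives `e = 1`; there is a `v` above `l` with
`v(x - w θ) = 1` (`n ≥ 2`), and `v(l (x - w θ)) = exp (-1)` is the value of `α g²`, a square: contradiction.
So `l ∣ w`, `l ∤ x`, `v(x - w θ) = 1` for all `v`, `e = 0`, `x ≡ x - w θ ≡ α g² mod v`, `v(g) = 1`; `c = x`:
`x α ≡ (α g)² mod v`; replace `α g` by an element of `𝓞 L`.
(2) `v0(α) = exp(-1)`, `v(α) = 1` for the other `v`: if `v(x - w θ) = 1` for all `v`, then the values of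
`l^e (x - w θ) ≈ α g²` at `v0` and at another `v` contradict each other (parity).  So `l ∤ w`, and
`x - w θ` is in exactly one prime `v1`, of norm `l`; if `v1 ≠ v0`, take a third prime (or `n = 2`: `n ≥ 3`
odd gives a third prime, as `N v0 = N v1 = l`); so `v1 = v0`, and `e = 0`, `v(g) = 1` for `v ≠ v0`.
`r ∈ ℤ` with `w r ≡ a x mod l`: `t - r ∈ v0`.  `N(α) D / l²` is an integer `u` prime to `l` and
`w ≈ κ q² = a u (l q)²`.  For `v ≠ v0`: `w (r - t) ≡ a (x - w θ) ≡ a α g²`, so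
`a u (l q)² (r - t) ≡ a α g²`, `u α ≡ (r - t) (u l q / g)² mod v`. -/
def S_SD2 : Prop := ∀ (f : ℤ[X]) (L : Type) [Field L] [NumberField L] (θ : L), Setup f L θ →
  Odd f.natDegree → 3 ≤ f.natDegree → ∃ B : ℕ, B ≠ 0 ∧ ∀ t : 𝓞 L, (t : L) = f.leadingCoeff * θ →
  ∀ (l : ℕ) [Fact l.Prime], ¬ l ∣ B → ∀ (d : ℚ[X]) (α : 𝓞 L) (D : ℤ), aeval θ d = (α : L) → α ≠ 0 →
  Squarefree D → (l : ℤ) ∣ D →
  Cov f d (((f.leadingCoeff * D : ℤ) : ℚ) * Algebra.norm ℚ (aeval θ d)) ℚ_[l] →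
  ((∀ v : HeightOneSpectrum (𝓞 L), Abv v l → v.valuation L (α : L) = 1) →
    ∃ c : ℤ, ¬ (l : ℤ) ∣ c ∧ ∀ v : HeightOneSpectrum (𝓞 L), Abv v l →
      ∃ g : 𝓞 L, (c : 𝓞 L) * α - g ^ 2 ∈ v.asIdeal) ∧
  ∀ v0 : HeightOneSpectrum (𝓞 L), Abv v0 l → Ideal.absNorm v0.asIdeal = l →
    v0.valuation L (α : L) = WithZero.exp (-1 : ℤ) →
    (∀ v : HeightOneSpectrum (𝓞 L), Abv v l → v ≠ v0 → v.valuation L (α : L) = 1) →
    ∃ r u : ℤ, t - (r : 𝓞 L) ∈ v0.asIdeal ∧ ¬ (l : ℤ) ∣ u ∧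
      (D : ℚ) * Algebra.norm ℚ (α : L) = u * (l : ℚ) ^ 2 ∧
      ∀ v : HeightOneSpectrum (𝓞 L), Abv v l → v ≠ v0 →
        ∃ g : 𝓞 L, (u : 𝓞 L) * α - ((r : 𝓞 L) - t) * g ^ 2 ∈ v.asIdeal

/-- JOB CH2. Changing the representative (adapt `Q91.EL.ch`): if `d'(θ) = c d(θ) η(θ)²`, `n` odd, then
`κ' = a D N(d'(θ)) = c κ (c^((n-1)/2) N(η(θ)))²`, and a point `(x, w, v, g)` of the covering of `d` gives the point
`(c x, c w, v / (c^((n-1)/2) N(η(θ))), ..)` of the one of `d'`. -/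
def S_CH2 : Prop := ∀ (f : ℤ[X]) (L : Type) [Field L] [NumberField L] (θ : L), Setup f L θ →
  Odd f.natDegree → ∀ (D : ℤ) (d d' η : ℚ[X]) (c : ℚ), c ≠ 0 → aeval θ η ≠ 0 →
  aeval θ d' = (c : L) * aeval θ d * aeval θ η ^ 2 →
  ∀ (F : Type) [Field F] [CharZero F],
    Cov f d (((f.leadingCoeff * D : ℤ) : ℚ) * Algebra.norm ℚ (aeval θ d)) F →
    Cov f d' (((f.leadingCoeff * D : ℤ) : ℚ) * Algebra.norm ℚ (aeval θ d')) F

/-! ## Part B: descent -/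

/-- JOB DESC2. The descent.
Proof (from `S_UN`, `S_CL`, `S_SC2`, `S_SD2`, `S_CH2`, `S_RAM`; adapt `Q239.EL.desc`).  `B` is a common multiple
of the finite bad numbers, `2 a ∣ B`, divisible by the ramified primes.  By `S_SC2` there is for every
prime `l ∤ B` an `e_l ∈ {0, 1}`, almost all `0`; `c = ∏ l^(e_l)`; `c δ` has even valuation at all `v ∤ B`
except the `v0(l)`, `l ∈ R`, `R` = the primes `l ∤ B`, `l ∣ D`, of the second kind.  `S_CL` and `S_UN` give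
`α = c δ η²`, `|σ α| ≤ C (∏_{l ∈ R} l)^(1/n)`.  `m` = product of the `l ∣ D`, `l ∤ B`, `l ∉ R`; so
`m ∏_R l ≤ |D|`.  By `S_CH2` `α = d'(θ)` satisfies the hypotheses of `S_SD2`, which gives `Gd`: the
number `D N(α) m ∈ ℤ` has even valuation at all `l ∤ B`, so it is `κ s²`, `κ` squarefree with
`κ ∣ B` (up to the choice of `B`: each prime factor of `κ` divides `B`, so `κ ∣ B`); and for `l ∈ R`,
`κ m = u l² (m/s)²` (`u` from `S_SD2`) with `m/s` of valuation `-1`: `κ m = u (l m / s)²`; the factor is a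
square of a rational number prime to `l`. -/
def S_DESC2 : Prop := ∀ (f : ℤ[X]) (L : Type) [Field L] [NumberField L] (θ : L), Setup f L θ →
  Odd f.natDegree → 3 ≤ f.natDegree → ∀ t : 𝓞 L, (t : L) = f.leadingCoeff * θ →
  ∃ (B : ℕ) (C : ℝ), B ≠ 0 ∧ 0 < C ∧ ∀ (D : ℤ) (d : ℚ[X]), Squarefree D → aeval θ d ≠ 0 →
  (∀ (p : ℕ) [Fact p.Prime],
    Cov f d (((f.leadingCoeff * D : ℤ) : ℚ) * Algebra.norm ℚ (aeval θ d)) ℚ_[p]) →
  ∃ (α : 𝓞 L) (c : ℚ) (η : L) (κ m : ℤ), α ≠ 0 ∧ c ≠ 0 ∧ η ≠ 0 ∧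
    (α : L) = c * aeval θ d * η ^ 2 ∧ κ ∣ (B : ℤ) ∧ Gd B t κ D α m ∧
    1 ≤ m ∧ (m : ℝ) ≤ D.natAbs ∧
    ∀ σ : L →+* ℂ, ‖σ (α : L)‖ ≤
      C * ((D.natAbs : ℝ) / m) ^ ((1 : ℝ) / Module.finrank ℚ L)

/-- JOB TY2. The pairs of one type satisfy the hypotheses of the sieve.
Proof.  `P1` is part of `Gd`.  `P2`, second part: `c = c1 c2` from the data of the two pairs.  First part: let
`α, α'` lie in `v0`; they are pairs of the second kind, with `r, r'`: `t - r, t - r' ∈ v0`, so `l ∣ r - r'`.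
For `v ≠ v0`: `κ² m m' α α' ≡ ((r - t) g g')² mod v`, and `κ` is prime to `l` (`κ ∣ B`): multiply by the square of an
inverse of `κ` modulo `l`. -/
def S_TY2O : Prop := ∀ (L : Type) [Field L] [NumberField L] (B : ℕ) (t : 𝓞 L) (κ : ℤ),
  B ≠ 0 → κ ∣ (B : ℤ) → ∀ l : ℕ, l.Prime → ¬ l ∣ B →
  P1 l {p : 𝓞 L × ℤ | ∃ D : ℤ, Gd B t κ D p.1 p.2} ∧
  P2 l {p : 𝓞 L × ℤ | ∃ D : ℤ, Gd B t κ D p.1 p.2}

/-- JOB CHL. Chebotarev's theorem for the quadratic extension `L(√z)` of `L`.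
Proof: `z` is not a square in `L`, so `L(√z)` is a field of degree `2 n`.  Let `M` be a Galois extension of `ℚ`
which contains it; `g ∈ Gal(M/ℚ)` trivial on `L` (one embedding of `L` in `M`) with `g √z = - √z`; by
Chebotarev's theorem (`Pool.Agent.Q224.OD.dvg_of`, `CHB.lean`, `CHBa.lean`: job CHB) the primes `l` with a prime
`w` of `M` with Frobenius element `g` have divergent sum of reciprocals, and for `v` = the prime of `L` below
`w`: `N v = l`, and `z` is not a square modulo `v` (outside the finite set of the primes which divide `2`, the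
discriminant, or the numerator or denominator of `z`).  (Or directly from `S_CHB` with `A`, `K` = the
field `ℚ(θ)`.. : `S_CHB` needs a normal field.)  -/
def S_CHL : Prop := ∀ (L : Type) [Field L] [NumberField L] (z : 𝓞 L), z ≠ 0 → ¬ IsSquare (z : L) →
  Dvg {l : ℕ | l.Prime ∧ ∃ v : HeightOneSpectrum (𝓞 L), Abv v l ∧ Ideal.absNorm v.asIdeal = l ∧
    ∀ g : 𝓞 L, z - g ^ 2 ∉ v.asIdeal}

/-- JOB THIN. The pairs with a fixed `α` which is not a rational number times a square.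
Proof (from `S_CHL`).  `z = α N(α)` (`N(α) ∈ ℤ`), `n` odd.  If `z = η²` in `L` then `α ∈ ℚ^* L^*²`.  So `z` is not a
square; let `P` be the set of `S_CHL` without the primes dividing `2 B N(α)`.  Suppose `l ∈ P`, `l ∣ m`:
then there are `c ∈ ℤ`, `l ∤ c`, and `g_v` with `c α ≡ g_v² mod v` for all `v` above `l`.  In
`𝓞/l = ∏ 𝓞/v` this gives `c α = g²` (Chinese remainder theorem), and taking norms to `F_l`:
`c^n N(α) = N(g)²`, so `c N(α)` is a square modulo `l` (`n` odd), and `z c² ≡ (c N(α)) (c α)` is a square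
modulo `v`, so `z` is one.  (The norm `𝓞/l → F_l` of the class of `α` is the class of `N(α)`; if the
algebra norm of `𝓞/l` is inconvenient: use `∏_σ` over the embeddings, or lift `g` to `𝓞 L`:
`c α - g² ∈ l 𝓞`, and `N(c α) ≡ N(g²) mod l`, since the norm is a polynomial with integral coefficients in the
coordinates.) -/
def S_THIN : Prop := ∀ (L : Type) [Field L] [NumberField L], Odd (Module.finrank ℚ L) →
  ∀ (B : ℕ) (t : 𝓞 L) (κ : ℤ), B ≠ 0 → (∀ l : ℕ, l.Prime → ¬ l ∣ B →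
    Squarefree (Ideal.span {(l : 𝓞 L)})) → ∀ α : 𝓞 L, ¬ Tr L (α : L) →
  ∃ P : Set ℕ, Dvg P ∧ ∀ m : ℤ, (∃ D : ℤ, Gd B t κ D α m) → ∀ l ∈ P, ¬ (l : ℤ) ∣ m

/-! ## Part C: the count -/

/-- JOB CNTG. The final count for a property `E` of squarefree integers.
Proof: adapt `Pool.Agent.Q111.OD.count2`, `fin2` (`Pool/Agent/Q111/OD/FIN2.lean`): replace
`∃ M S, S.Good D B0 ∧ NT h S` by `E D`. -/
def S_CNTG : Prop := ∀ (L : Type) [Field L] [NumberField L], 5 ≤ Module.finrank ℚ L →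
  ∀ (E : ℤ → Prop) (B : ℕ) (C : ℝ) (N : ℕ) (T : Fin N → Set (𝓞 L × ℤ)), B ≠ 0 → 0 < C →
    (∀ k, ∀ l : ℕ, l.Prime → ¬ l ∣ B → P1 l (T k) ∧ P2 l (T k)) →
    (∀ k, ∀ α : 𝓞 L, ∃ P : Set ℕ, Dvg P ∧ ∀ m : ℤ, (α, m) ∈ T k → ∀ l ∈ P, ¬ (l : ℤ) ∣ m) →
    (∀ D : ℤ, Squarefree D → E D →
      ∃ k, ∃ p ∈ T k, (∀ l : ℕ, l.Prime → ¬ l ∣ B → ((l : ℤ) ∣ D ↔
          (l : ℤ) ∣ p.2 ∨ ∃ v : HeightOneSpectrum (𝓞 L), Abv v l ∧ p.1 ∈ v.asIdeal)) ∧
        1 ≤ p.2 ∧ (p.2 : ℝ) ≤ D.natAbs ∧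
        ∀ σ : L →+* ℂ, ‖σ (p.1 : L)‖ ≤
          C * ((D.natAbs : ℝ) / p.2) ^ ((1 : ℝ) / Module.finrank ℚ L)) →
  ∀ ε : ℝ, 0 < ε → ∃ X0 : ℝ, ∀ X : ℝ, X0 ≤ X →
    (({D : ℤ | (D.natAbs : ℝ) ≤ X ∧ Squarefree D ∧ E D}.ncard : ℕ) : ℝ) ≤ ε * X

/-- JOB FINO. The theorem (from `S_DESC2`, `S_TY2O`, `S_THIN`, `S_CNTG`, `S_RAM`).
Proof: `h` has a zero `θ` in a number field `L` (`Pool.Agent.Q251.SX.exists_L`), `t` = `Pool.Agent.Q161.SX.exists_t`.
Replace `B` of `S_DESC2` by a multiple divisible by the ramified primes (`Gd` for `B` implies `Gd` for a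
multiple).  The types are the divisors `κ` of `B`;
`T κ = {(α, m) | ¬ Tr L α ∧ ∃ D, Gd B t κ D α m}`, for `α` in `ℚ^* L^*²` take for `P` (in `S_CNTG`) all primes
(`Pool.Agent.Q161.OD.dvg_primes`). -/
def S_FINO : Prop := ∀ f : ℤ[X], Irreducible (f.map (Int.castRingHom ℚ)) → Odd f.natDegree →
  5 ≤ f.natDegree → ∀ (L : Type) [Field L] [NumberField L] (θ : L), Setup f L θ →
  ∀ ε : ℝ, 0 < ε → ∃ X0 : ℝ, ∀ X : ℝ, X0 ≤ X →
    (({D : ℤ | (D.natAbs : ℝ) ≤ X ∧ Squarefree D ∧ ∃ d : ℚ[X], aeval θ d ≠ 0 ∧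
      ¬ Tr L (aeval θ d) ∧ ∀ (p : ℕ) [Fact p.Prime],
        Cov f d (((f.leadingCoeff * D : ℤ) : ℚ) * Algebra.norm ℚ (aeval θ d)) ℚ_[p]}.ncard : ℕ) : ℝ) ≤
    ε * X

/-- JOB LIFT2. Rational points of `C_D`.
Proof (compare `Pool/Agent/Q241/EL/Lift.lean`): `f` has no rational zero, so `y ≠ 0`; `N(x - θ) = f(x) / a`, so
`κ = a D N(x - θ) = D f(x) = (D y)²`, and `(x, 1, 1/(D y), 1)` is a point.  If `x - θ = c η²` then
`f(x) / a = c^n N(η)²`, so `a D c` is a square in `ℚ` (`n` odd), and `a D (x - θ) = (a D c) η²`. -/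
def S_LIFT2 : Prop := ∀ (f : ℤ[X]) (L : Type) [Field L] [NumberField L] (θ : L), Setup f L θ →
  Odd f.natDegree → 2 ≤ f.natDegree → ∀ (D : ℤ) (x y : ℚ), D ≠ 0 → (D : ℚ) * y ^ 2 = aeval x f →
  (∀ (F : Type) [Field F] [CharZero F], Cov f (C x - X)
    (((f.leadingCoeff * D : ℤ) : ℚ) * Algebra.norm ℚ (aeval θ (C x - X : ℚ[X]))) F) ∧
  aeval θ (C x - X : ℚ[X]) ≠ 0 ∧
  (Tr L (aeval θ (C x - X : ℚ[X])) → IsSquare (((f.leadingCoeff * D : ℤ) : L) * ((x : L) - θ)))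

end Pool.Agent.Q161.OS
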