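import Pool.Agent.Q161.OD.All
import Pool.Agent.Q237.OS.FINO
import Pool.Agent.Q237.OS.LIFT2
import Pool.Agent.Q237.OS.CNTG
import Pool.Agent.Q237.OS.CH2
import Pool.Agent.Q237.OS.TY2O
import Pool.Agent.Q237.OS.NV2
import Pool.Agent.Q96.OS2.THIN
import Pool.Agent.Q96.OS2.CHL
import Pool.Agent.Q151.OS.DESC2
import Pool.Agent.Q151.OS.SD2
import Pool.Agent.Q151.OS.SC2
import Pool.Agent.Q166.OS.AP2

/-! # Project OS: all parts -/

set_option autoImplicit false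

namespace Pool.Agent.Q161.OS

open Pool.Agent.Q51.EL

theorem t_root : S_ROOT := Pool.Agent.Q239.EL.root Pool.Agent.Q91.EL.ram

theorem t_desc2 : S_DESC2 :=
  Pool.Agent.Q151.OS.desc2 Pool.Agent.Q239.EL.un Pool.Agent.Q239.EL.cl
    (Pool.Agent.Q151.OS.sc2 Pool.Agent.Q166.OS.ap2 t_root Pool.Agent.Q237.OS.nv2
      Pool.Agent.Q91.EL.ram)
    (Pool.Agent.Q151.OS.sd2 Pool.Agent.Q166.OS.ap2 t_root Pool.Agent.Q237.OS.nv2
      Pool.Agent.Q91.EL.ram)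
    Pool.Agent.Q237.OS.ch2 Pool.Agent.Q91.EL.ram

/-- the 2-Selmer set has exactly one element for 100 percent of all squarefree `D` -/
theorem t_fino : S_FINO :=
  Pool.Agent.Q237.OS.fino t_desc2 Pool.Agent.Q237.OS.ty2o
    (Pool.Agent.Q96.OS2.thin Pool.Agent.Q96.OS2.chl)
    (Pool.Agent.Q237.OS.cntg Pool.Agent.Q161.OD.t_ct) Pool.Agent.Q91.EL.ram

theorem t_lift2 : S_LIFT2 := Pool.Agent.Q237.OS.lift2

end Pool.Agent.Q161.OS
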