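import Pool.Agent.Q161.OS.All
import Pool.Agent.Q161.SX.Top

/-! # Project OS: the theorem in terms of polynomials -/

set_option autoImplicit false

namespace Pool.Agent.Q161.OS

open Polynomial NumberField
open Pool.Agent.Q51.EL

/-- `a D N(d(θ))` -/
noncomputable def kap (f : ℤ[X]) (D : ℤ) (d : ℚ[X]) : ℚ :=
  ((f.leadingCoeff * D : ℤ) : ℚ) * Algebra.norm ℚ (AdjoinRoot.mk (f.map (Int.castRingHom ℚ)) d)

/-- `d(θ)` is a rational number times a square -/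
def TrP (f : ℤ[X]) (d : ℚ[X]) : Prop :=
  ∃ (c : ℚ) (η : ℚ[X]), f.map (Int.castRingHom ℚ) ∣ d - C c * η ^ 2

/-- there is an everywhere locally soluble covering with nontrivial class -/
def BdP (f : ℤ[X]) (D : ℤ) : Prop :=
  ∃ d : ℚ[X], IsCoprime (f.map (Int.castRingHom ℚ)) d ∧ ¬ TrP f d ∧
    ∀ (p : ℕ) [Fact p.Prime], Cov f d (kap f D d) ℚ_[p]

/-- the field `ℚ[X]/(f)` -/
theorem exists_adj (f : ℤ[X]) (hf : Irreducible (f.map (Int.castRingHom ℚ))) :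
    ∃ (L : Type) (_ : Field L) (_ : NumberField L) (θ : L), Setup f L θ ∧
      (∀ d : ℚ[X], Algebra.norm ℚ (aeval θ d) =
        Algebra.norm ℚ (AdjoinRoot.mk (f.map (Int.castRingHom ℚ)) d)) ∧
      ∀ d : ℚ[X], aeval θ d = 0 ↔ f.map (Int.castRingHom ℚ) ∣ d := by
  have : Fact (Irreducible (f.map (Int.castRingHom ℚ))) := ⟨hf⟩
  have hfd : FiniteDimensional ℚ (AdjoinRoot (f.map (Int.castRingHom ℚ))) :=
    PowerBasis.finite (AdjoinRoot.powerBasis hf.ne_zero)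
  have : CharZero (AdjoinRoot (f.map (Int.castRingHom ℚ))) := algebraRat.charZero _
  have hN : NumberField (AdjoinRoot (f.map (Int.castRingHom ℚ))) :=
    { to_charZero := inferInstance, to_finiteDimensional := hfd }
  have hnd : (f.map (Int.castRingHom ℚ)).natDegree = f.natDegree :=
    natDegree_map_eq_of_injective (Int.castRingHom ℚ).injective_int f
  have haev : ∀ d : ℚ[X], aeval (AdjoinRoot.root (f.map (Int.castRingHom ℚ))) d =
      AdjoinRoot.mk (f.map (Int.castRingHom ℚ)) d := by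
    intro d
    rw [← AdjoinRoot.aeval_eq d]
    congr 1
  refine ⟨AdjoinRoot (f.map (Int.castRingHom ℚ)), inferInstance, hN,
    AdjoinRoot.root (f.map (Int.castRingHom ℚ)), ⟨hf, ?_, ?_⟩, ?_, ?_⟩
  · have h1 := AdjoinRoot.eval₂_root (f.map (Int.castRingHom ℚ))
    rw [eval₂_map] at h1
    rw [aeval_def, ← h1]
    congr 1
  · rw [(AdjoinRoot.powerBasis hf.ne_zero).finrank, AdjoinRoot.powerBasis_dim, hnd]
  · intro d
    rw [haev d]
    congr 1
  · intro d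
    rw [haev d, AdjoinRoot.mk_eq_zero]

theorem tr_iff {f : ℤ[X]} {L : Type} [Field L] [NumberField L] {θ : L} (hs : Setup f L θ)
    (d : ℚ[X]) : Tr L (aeval θ d) ↔ TrP f d := by
  constructor
  · rintro ⟨c, η, h⟩
    obtain ⟨p, rfl⟩ := Pool.Agent.Q239.EL.theta_surj hs η
    refine ⟨c, p, Pool.Agent.Q91.EL.setup_dvd hs ?_⟩
    rw [map_sub, map_mul, map_pow, aeval_C, h]
    simp
  · rintro ⟨c, η, q, hq⟩
    refine ⟨c, aeval θ η, ?_⟩
    have h0 : aeval θ (f.map (Int.castRingHom ℚ)) = 0 := by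
      have h1 := hs.root
      rw [← Polynomial.aeval_map_algebraMap ℚ θ f] at h1
      exact h1
    have h1 := congrArg (aeval θ) hq
    rw [map_mul, h0, zero_mul, map_sub, map_mul, map_pow, aeval_C, sub_eq_zero] at h1
    rw [h1]
    simp

theorem pts_density (f : ℤ[X]) (hf : Irreducible (f.map (Int.castRingHom ℚ)))
    (hodd : Odd f.natDegree) (h5 : 5 ≤ f.natDegree) (ε : ℝ) (hε : 0 < ε) :
    ∃ X0 : ℝ, ∀ X : ℝ, X0 ≤ X →
      (({D : ℤ | (D.natAbs : ℝ) ≤ X ∧ Squarefree D ∧ BdP f D}.ncard : ℕ) : ℝ) ≤ ε * X := by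
  obtain ⟨L, i1, i2, θ, hs, hn, hz⟩ := exists_adj f hf
  obtain ⟨X0, h⟩ := t_fino f hf hodd h5 L θ hs ε hε
  refine ⟨X0, fun X hX => le_trans ?_ (h X hX)⟩
  have hfin : {D : ℤ | (D.natAbs : ℝ) ≤ X ∧ Squarefree D ∧ ∃ d : ℚ[X], aeval θ d ≠ 0 ∧
      ¬ Tr L (aeval θ d) ∧ ∀ (p : ℕ) [Fact p.Prime],
        Cov f d (((f.leadingCoeff * D : ℤ) : ℚ) * Algebra.norm ℚ (aeval θ d)) ℚ_[p]}.Finite :=
    Pool.Agent.Q161.SX.natAbs_finite X _
  refine Nat.cast_le.2 (Set.ncard_le_ncard ?_ hfin)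
  rintro D ⟨h1, h2, d, h3, h4, h5⟩
  refine ⟨h1, h2, d, ?_, ?_, ?_⟩
  · rw [Ne, hz]
    intro h0
    exact hf.not_isUnit (h3.isUnit_of_dvd' dvd_rfl h0)
  · rwa [tr_iff hs]
  · intro p _
    have := h5 p
    rw [kap, ← hn] at this
    exact this

theorem pts_rat (f : ℤ[X]) (hf : Irreducible (f.map (Int.castRingHom ℚ)))
    (hodd : Odd f.natDegree) (h2 : 2 ≤ f.natDegree) (D : ℤ) (hD0 : D ≠ 0) (hD : ¬ BdP f D)
    (x y : ℚ) (hxy : (D : ℚ) * y ^ 2 = aeval x f) :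
    ∃ η : ℚ[X], f.map (Int.castRingHom ℚ) ∣
      C ((f.leadingCoeff * D : ℤ) : ℚ) * (C x - X) - η ^ 2 := by
  obtain ⟨L, i1, i2, θ, hs, hn, hz⟩ := exists_adj f hf
  obtain ⟨h3, h4, h5⟩ := t_lift2 f L θ hs hodd h2 D x y hD0 hxy
  have h6 : TrP f (C x - X) := by
    by_contra h
    refine hD ⟨C x - X, ?_, h, ?_⟩
    · rw [hf.coprime_iff_not_dvd, ← hz]
      exact h4
    · intro p _
      have := h3 ℚ_[p]
      rw [hn] at this
      exact this
  obtain ⟨ζ, hζ⟩ := h5 ((tr_iff hs _).2 h6)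
  obtain ⟨p, rfl⟩ := Pool.Agent.Q239.EL.theta_surj hs ζ
  refine ⟨p, (hz _).1 ?_⟩
  rw [map_sub, map_mul, map_sub, map_pow, aeval_C, aeval_C, aeval_X, sq, ← hζ]
  simp

end Pool.Agent.Q161.OS
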