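import Pool.Agent.Q161.OS.Pts

/-! # Project OS: final form -/

set_option autoImplicit false

namespace Pool.Agent.Q161.OS

open Polynomial Finset

/-- the point `(x : w)` lifts to the covering of `d(θ)` -/
def LiftPt (f : ℤ[X]) (D : ℤ) (d : ℚ[X]) (F : Type) [Field F] [CharZero F] (x w : F) : Prop :=
  ∃ (c v : F) (g : F[X]), c ≠ 0 ∧
    f.map (Int.castRingHom F) ∣ C (c * x) - C (c * w) * X - d.map (Rat.castHom F) * g ^ 2 ∧
    c * w = (kap f D d : F) * v ^ 2

theorem lift_cov {f : ℤ[X]} {D : ℤ} {d : ℚ[X]} {F : Type} [Field F] [CharZero F] {x w : F}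
    (hxw : x ≠ 0 ∨ w ≠ 0) (h : LiftPt f D d F x w) : Cov f d (kap f D d) F := by
  obtain ⟨c, v, g, hc, h1, h2⟩ := h
  exact ⟨c * x, c * w, v, g, hxw.imp (mul_ne_zero hc) (mul_ne_zero hc), h1, h2⟩

theorem norm_C {f : ℤ[X]} (hf : Irreducible (f.map (Int.castRingHom ℚ))) (c : ℚ) :
    Algebra.norm ℚ (AdjoinRoot.mk (f.map (Int.castRingHom ℚ)) (C c)) = c ^ f.natDegree := by
  have hnd : (f.map (Int.castRingHom ℚ)).natDegree = f.natDegree :=
    natDegree_map_eq_of_injective (Int.castRingHom ℚ).injective_int f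
  have h1 : AdjoinRoot.mk (f.map (Int.castRingHom ℚ)) (C c) =
      algebraMap ℚ (AdjoinRoot (f.map (Int.castRingHom ℚ))) c := rfl
  have := (AdjoinRoot.powerBasis hf.ne_zero).finrank
  rw [AdjoinRoot.powerBasis_dim, hnd] at this
  have hfact : Fact (Irreducible (f.map (Int.castRingHom ℚ))) := ⟨hf⟩
  rw [h1, Algebra.norm_algebraMap_of_basis (AdjoinRoot.powerBasis hf.ne_zero).basis,
    Fintype.card_fin, AdjoinRoot.powerBasis_dim, hnd]

theorem kap_one {f : ℤ[X]} (hf : Irreducible (f.map (Int.castRingHom ℚ))) (D : ℤ) :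
    kap f D 1 = ((f.leadingCoeff * D : ℤ) : ℚ) := by
  have h := norm_C hf 1
  rw [one_pow, C_1] at h
  rw [kap, h, mul_one]

theorem lift_one {f : ℤ[X]} (hf : Irreducible (f.map (Int.castRingHom ℚ))) (hodd : Odd f.natDegree)
    {D : ℤ} {d : ℚ[X]} (hcop : IsCoprime (f.map (Int.castRingHom ℚ)) d) (hT : TrP f d)
    {F : Type} [Field F] [CharZero F] {x w : F} (h : LiftPt f D d F x w) :
    LiftPt f D 1 F x w := by
  obtain ⟨c, η, q, hq⟩ := hT
  obtain ⟨k, hk⟩ := hodd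
  have hc : c ≠ 0 := by
    rintro rfl
    rw [C_0, zero_mul, sub_zero] at hq
    exact hf.not_isUnit (hcop.isUnit_of_dvd' dvd_rfl ⟨q, hq⟩)
  obtain ⟨b, v, g, hb, ⟨q', hq'⟩, hw⟩ := h
  obtain ⟨N, hN⟩ : ∃ N : ℚ, N = Algebra.norm ℚ (AdjoinRoot.mk (f.map (Int.castRingHom ℚ)) η) :=
    ⟨_, rfl⟩
  have hnorm : kap f D d = ((f.leadingCoeff * D : ℤ) : ℚ) * (c ^ (2 * k + 1) * N ^ 2) := by
    have h1 : AdjoinRoot.mk (f.map (Int.castRingHom ℚ)) d =
        AdjoinRoot.mk (f.map (Int.castRingHom ℚ)) (C c) *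
        AdjoinRoot.mk (f.map (Int.castRingHom ℚ)) η ^ 2 := by
      rw [← map_pow, ← map_mul, AdjoinRoot.mk_eq_mk]
      exact ⟨q, hq⟩
    rw [kap, h1, map_mul, map_pow, norm_C hf, hk, hN]
  have hcF : (c : F) ≠ 0 := by exact_mod_cast hc
  refine ⟨(c : F) * b, (c : F) ^ (k + 1) * (N : F) * v,
    C (c : F) * η.map (Rat.castHom F) * g, mul_ne_zero hcF hb, ?_, ?_⟩
  · have h2 := congrArg (Polynomial.map (Rat.castHom F)) hq
    rw [Polynomial.map_mul, Polynomial.map_sub, Polynomial.map_mul, Polynomial.map_pow,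
      Polynomial.map_map, map_C] at h2
    have h3 : (Rat.castHom F).comp (Int.castRingHom ℚ) = Int.castRingHom F := RingHom.ext_int _ _
    rw [h3] at h2
    have h4 : (Rat.castHom F) c = (c : F) := rfl
    rw [h4] at h2
    refine ⟨C (c : F) * q' + C (c : F) * q.map (Rat.castHom F) * g ^ 2, ?_⟩
    rw [Polynomial.map_one, one_mul]
    simp only [C_mul] at hq' ⊢
    linear_combination (C (c : F)) * hq' + (C (c : F)) * g ^ 2 * h2
  · rw [kap_one hf]
    have h5 : ((kap f D d : ℚ) : F) = ((f.leadingCoeff * D : ℤ) : F) *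
        ((c : F) ^ (2 * k + 1) * (N : F) ^ 2) := by
      rw [hnorm]
      push_cast
      ring
    rw [h5] at hw
    push_cast at hw ⊢
    linear_combination (c : F) * hw

/-- a rational point lifts to the covering of the point at infinity -/
theorem rat_lift {f : ℤ[X]} (hf : Irreducible (f.map (Int.castRingHom ℚ))) (hodd : Odd f.natDegree)
    (h2 : 2 ≤ f.natDegree) {D : ℤ} (hD0 : D ≠ 0) (hD : ¬ BdP f D) (x w y : ℚ) (hxw : x ≠ 0 ∨ w ≠ 0)
    (h : (D : ℚ) * y ^ 2 = w * ∑ i ∈ range (f.natDegree + 1),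
      (f.coeff i : ℚ) * x ^ i * w ^ (f.natDegree - i)) : LiftPt f D 1 ℚ x w := by
  by_cases hw : w = 0
  · subst hw
    have hx : x ≠ 0 := by tauto
    refine ⟨x⁻¹, 0, 1, inv_ne_zero hx, ?_, by simp⟩
    rw [inv_mul_cancel₀ hx]
    simp
  · obtain ⟨k, hk⟩ := hodd
    have hsum : (∑ i ∈ range (f.natDegree + 1),
        (f.coeff i : ℚ) * x ^ i * w ^ (f.natDegree - i)) = w ^ f.natDegree * aeval (x / w) f := by
      rw [aeval_eq_sum_range, Finset.mul_sum]
      refine Finset.sum_congr rfl fun i hi => ?_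
      have hi' : i ≤ f.natDegree := by
        rw [Finset.mem_range] at hi
        omega
      rw [zsmul_eq_mul, div_pow]
      have e : w ^ f.natDegree = w ^ (f.natDegree - i) * w ^ i := by
        rw [← pow_add]
        congr 1
        omega
      rw [e]
      field_simp
    rw [hsum, hk] at h
    have hxy : (D : ℚ) * (y / w ^ (k + 1)) ^ 2 = aeval (x / w) f := by
      have hw2 : w ^ (2 * k + 2) ≠ 0 := pow_ne_zero _ hw
      rw [div_pow, ← pow_mul, mul_div_assoc', div_eq_iff (pow_ne_zero _ hw)]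
      rw [h]
      ring
    obtain ⟨η, q, hq⟩ := pts_rat f hf ⟨k, hk⟩ h2 D hD0 hD (x / w) (y / w ^ (k + 1)) hxy
    refine ⟨((f.leadingCoeff * D : ℤ) : ℚ) / w, 1, η, ?_, ⟨q, ?_⟩, ?_⟩
    · refine div_ne_zero ?_ hw
      have h3 : f.leadingCoeff ≠ 0 := by
        rw [Ne, leadingCoeff_eq_zero]
        rintro rfl
        simp at h2
      exact_mod_cast mul_ne_zero h3 hD0
    · have h3 : (Rat.castHom ℚ) = RingHom.id ℚ := Subsingleton.elim _ _
      rw [Polynomial.map_one, one_mul, ← hq]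
      have e1 : ((f.leadingCoeff * D : ℤ) : ℚ) / w * x =
          ((f.leadingCoeff * D : ℤ) : ℚ) * (x / w) := by ring
      have e2 : ((f.leadingCoeff * D : ℤ) : ℚ) / w * w = ((f.leadingCoeff * D : ℤ) : ℚ) :=
        div_mul_cancel₀ _ hw
      rw [e1, e2, C_mul]
      ring
    · rw [kap_one hf, div_mul_cancel₀ _ hw]
      push_cast
      ring

end Pool.Agent.Q161.OS
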