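import Pool.Agent.Q161.OS.Stm

/-! # Project OS: points of the trivial 2-covering reduce to infinity -/

set_option autoImplicit false

namespace Pool.Agent.Q161.OS

open Polynomial

/-- JOB RED. If a point `(x : w)` of `C_D` over `ℚ_p`, `p ∣ D`, `p` large, lifts to the 2-covering
`lam (x - θ w) = g(θ)²`, `lam w = a D v²` of the point at infinity, it reduces to the point at infinity modulo `p`.
Proof.  There are `U, V ∈ ℤ[X]`, `N ≠ 0` with `U f + V f' = N` (clear denominators in the Bezout identity over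
`ℚ`); `z = |a N|`.  So for `p > z` the reduction `fb` of `f` modulo `p` has degree `n` and is separable, so
squarefree.  Suppose `‖x‖ ≤ ‖w‖`.  Then `w ≠ 0`, `v ≠ 0`; dividing by `v²`: `r = x / w ∈ ℤ_p`, and `h = g / v`
satisfies `h² = a D (r - X) + f q` in `ℚ_p[X]`; we may reduce `h` modulo `f`, so `deg h < n`; `h ≠ 0`
(else `f` divides a nonzero polynomial of degree one) and `q ≠ 0` (parity of the degrees).  Write `h = c h1`,
`q = c' q1` with `c, c' ∈ ℚ_p^*`, `h1, q1 ∈ ℤ_p[X]` with nonzero reductions modulo `p` (divide by a coefficient of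
maximal norm).  So `c² h1² = a D (r - X) + c' f q1`.  The norms are `‖c‖²` (an even power of `p`),
`‖a D‖ = 1/p`, `‖c'‖`.  If `‖c‖² > 1/p`: divide by `c²`; modulo `p` this gives `h1b² = u fb q1b` if
`‖c'‖ = ‖c‖²` (so `fb ∣ h1b`, as `fb` is squarefree, contradiction to the degree), and a contradiction if
`‖c'‖ ≠ ‖c‖²` (divide by the larger of `c², c'`; products of nonzero polynomials over `F_p` are nonzero).
If `‖c‖² < 1/p`: similarly `‖c'‖ = 1/p` and `fb ∣ (r - X)` modulo `p`, contradiction to `n ≥ 2`. -/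
def S_RED : Prop := ∀ f : ℤ[X], Irreducible (f.map (Int.castRingHom ℚ)) → 2 ≤ f.natDegree →
  ∃ z : ℕ, ∀ (p : ℕ) [Fact p.Prime], z < p → ∀ D : ℤ, Squarefree D → (p : ℤ) ∣ D →
  ∀ (x w v lam : ℚ_[p]) (g : ℚ_[p][X]), lam ≠ 0 → (x ≠ 0 ∨ w ≠ 0) →
  f.map (Int.castRingHom ℚ_[p]) ∣ C (lam * x) - C (lam * w) * X - g ^ 2 →
  lam * w = ((f.leadingCoeff * D : ℤ) : ℚ_[p]) * v ^ 2 → ‖w‖ < ‖x‖

end Pool.Agent.Q161.OS
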